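import Pool.Agent.Helper40.LS.Basic

/-! Small facts used in LS-Q7 and LS-Q8. -/

set_option autoImplicit false
open Classical Filter Topology

namespace Pool.Agent.Helper40.LS

/-- `log n ≤ c n` eventually -/
theorem h64_log_le {c : ℝ} (hc : 0 < c) : ∀ᶠ n : ℕ in atTop, Real.log n ≤ c * n := by
  have h := (Real.isLittleO_log_id_atTop.comp_tendsto tendsto_natCast_atTop_atTop).def hc
  filter_upwards [h, eventually_ge_atTop 1] with n hn h1
  have h2 : (1 : ℝ) ≤ n := by exact_mod_cast h1
  simp only [Function.comp, id, Real.norm_eq_abs, abs_of_nonneg (Real.log_nonneg h2),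
    abs_of_nonneg (le_trans zero_le_one h2)] at hn
  exact hn

/-- the density is a probability -/
theorem h64_pc {ε : ℝ} (hε : 0 < ε) (hε1 : ε < 1) : ∀ᶠ n : ℕ in atTop, 0 ≤ pc ε n ∧ pc ε n ≤ 1 := by
  filter_upwards [h64_log_le (c := 1) one_pos, eventually_ge_atTop 1] with n hn h1
  have h2 : (1 : ℝ) ≤ n := by exact_mod_cast h1
  have h3 : 0 ≤ Real.log n := Real.log_nonneg h2
  refine ⟨by unfold pc; positivity, ?_⟩
  rw [pc, div_le_one (by linarith)]
  nlinarith

/-- the condition on bad columns -/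
theorem h64_half {a : ℝ} (ha : 0 < a) : ∀ᶠ n : ℕ in atTop, (n : ℝ) ^ (-a) ≤ 1 / 2 := by
  have h := (tendsto_rpow_neg_atTop ha).comp tendsto_natCast_atTop_atTop
  exact (h.eventually_le_const (by norm_num : (0 : ℝ) < 1 / 2)).mono fun n hn => hn

end Pool.Agent.Helper40.LS
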