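import Pool.Agent.Helper40.LS.Q34
import Pool.Agent.Helper40.LS.Q5
import Pool.Agent.Helper64.LS.Num

set_option autoImplicit false
open Classical Filter Topology

namespace Pool.Agent.Helper40.LS

/-- the numbers -/
theorem h64_num7 {q ζ : ℝ} (hq : 0 < q) (hζ : 0 < ζ) : ∀ᶠ n : ℕ in atTop,
    2 * (n : ℝ) ^ (1 - q / 2) - q * ζ * n / 32 ≤ -(3 * Real.log n) := by
  have hc : 0 < q * ζ / 64 := by positivity
  have h1 := (tendsto_rpow_neg_atTop (show 0 < q / 2 by positivity)).comp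
    tendsto_natCast_atTop_atTop
  have h2 := h1.eventually_le_const (show (0 : ℝ) < q * ζ / 128 by positivity)
  filter_upwards [h2, h64_log_le (c := q * ζ / 192) (by positivity), eventually_ge_atTop 1]
    with n hn hl h1
  have h3 : (1 : ℝ) ≤ n := by exact_mod_cast h1
  have h4 : (n : ℝ) ^ (1 - q / 2) = n * (n : ℝ) ^ (-(q / 2)) := by
    rw [sub_eq_add_neg, Real.rpow_add (by linarith), Real.rpow_one]
  have h5 : (n : ℝ) ^ (-(q / 2)) ≤ q * ζ / 128 := hn
  rw [h4]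
  nlinarith

/-- LS-Q7: exceptional columns (uses Q4, Q5) -/
theorem exc_fail {δ ε dA h z0 dC ζ : ℝ} (P : Par δ ε dA h z0 dC ζ) :
    ∀ᶠ n : ℕ in atTop, ∀ (R B : Gr n) (Bd Act Y0 : Finset (Fin n)) (z : ℝ),
      Reserve R (δ / 8) ζ → Disjoint Act Bd → z0 ≤ z →
      (∀ c ∈ Act, (δ / 8 - tau δ) * (2 * z * n) ≤ ((nb B c ∩ Y0).card : ℝ)) →
      Ex (pc ε n) (fun C => ind (bad R C (bb δ ε n) = Bd) *
        ind (gg ζ n < ((Act.filter fun c =>
          ((nb C c ∩ nb B c ∩ Y0).card : ℝ) < l2 δ ε z0 n).card : ℝ))) ≤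
      (n : ℝ) ^ (-(3 : ℝ)) * Ex (pc ε n) (fun C => ind (bad R C (bb δ ε n) = Bd)) := by
  have hδ := P.δ0
  have hδ1 := P.δ1
  have hε := P.ε0
  have hε1 := P.ε1
  have hz0 := P.zpos
  have hζ := P.ζ0
  set q : ℝ := ε * (δ / 8) * z0 / 64 with hq
  have hq0 : 0 < q := by positivity
  filter_upwards [pr_bad P, h64_pc hε hε1, h64_half (a := ε * δ / 1024) (by positivity),
    h64_num7 hq0 hζ, eventually_ge_atTop 2] with n hbad hp hhalf hnum hn2
  intro R B Bd Act Y0 z hR hdis hz hdeg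
  obtain ⟨hp0, hp1⟩ := hp
  have hn : (2 : ℝ) ≤ n := by exact_mod_cast hn2
  have hnpos : (0 : ℝ) < n := by linarith
  have hlog : 0 < Real.log n := Real.log_pos (by linarith)
  have hb := (hbad R hR).1
  set a : ℝ := (n : ℝ) ^ (q / 2) with ha
  have ha1 : 1 ≤ a := Real.one_le_rpow (by linarith) (by positivity)
  have hgg : 0 ≤ gg ζ n := by unfold gg; positivity
  -- the probability that a column is exceptional
  have hpr : ∀ c ∈ Act, FL.Pr (pc ε n) (fun Y : Finset (Fin n) =>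
      ((Y ∩ nb B c ∩ Y0).card : ℝ) < l2 δ ε z0 n) ≤ (n : ℝ) ^ (-q) := by
    intro c hc
    have h1 := hdeg c hc
    have h2 : ε * (δ / 8) * z0 / 8 * Real.log n ≤ pc ε n * ((nb B c ∩ Y0).card : ℝ) := by
      have h3 : δ / 8 * z0 * n ≤ (δ / 8 - tau δ) * (2 * z * n) := by
        have h4 : tau δ ≤ δ / 8 / 2 := by unfold tau; nlinarith
        have h5 : δ / 8 / 2 * (2 * z0 * n) ≤ (δ / 8 - tau δ) * (2 * z * n) := by
          refine mul_le_mul (by linarith) ?_ (by positivity) (by nlinarith)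
          exact mul_le_mul_of_nonneg_right (by linarith) hnpos.le
        nlinarith
      have h6 : δ / 8 * z0 * n ≤ ((nb B c ∩ Y0).card : ℝ) := h3.trans h1
      calc ε * (δ / 8) * z0 / 8 * Real.log n = pc ε n * (δ / 8 * z0 * n) := by
            unfold pc; field_simp
        _ ≤ _ := mul_le_mul_of_nonneg_left h6 hp0
    have h7 := tail_half hp0 hp1 (nb B c ∩ Y0) (L := l2 δ ε z0 n) (by
      unfold l2; linarith)
    refine (FL.Pr_mono hp0 hp1 fun Y hY => ?_).trans (h7.trans ?_)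
    · rw [Finset.inter_assoc] at hY
      exact hY.le
    · rw [Real.rpow_def_of_pos hnpos]
      refine Real.exp_le_exp.2 ?_
      have : Real.log n * -q = -(ε * (δ / 8) * z0 / 8 * Real.log n / 8) := by rw [hq]; ring
      rw [this]
      linarith
  -- the exponential moment
  have hkey := cond_exp hp0 hp1 R (bb δ ε n) (fun c => (hb c).trans hhalf) Bd Act hdis
    (fun c Y => ((Y ∩ nb B c ∩ Y0).card : ℝ) < l2 δ ε z0 n) (a := a) (q := (n : ℝ) ^ (-q))
    (by linarith) hpr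
  -- pointwise bound
  have hpt : ∀ C : Gr n, ind (bad R C (bb δ ε n) = Bd) *
        ind (gg ζ n < ((Act.filter fun c =>
          ((nb C c ∩ nb B c ∩ Y0).card : ℝ) < l2 δ ε z0 n).card : ℝ)) ≤
      a ^ (-(gg ζ n)) * (ind (bad R C (bb δ ε n) = Bd) *
        ∏ c ∈ Act, (1 + a * ind (((nb C c ∩ nb B c ∩ Y0).card : ℝ) < l2 δ ε z0 n))) := by
    intro C
    have h1 : ∏ c ∈ Act, (1 + a * ind (((nb C c ∩ nb B c ∩ Y0).card : ℝ) < l2 δ ε z0 n)) =
        (1 + a) ^ (Act.filter fun c =>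
          ((nb C c ∩ nb B c ∩ Y0).card : ℝ) < l2 δ ε z0 n).card := by
      rw [← Finset.prod_const, Finset.prod_filter]
      refine Finset.prod_congr rfl fun c _ => ?_
      unfold ind
      split_ifs <;> simp
    have h2 : ind (gg ζ n < ((Act.filter fun c =>
          ((nb C c ∩ nb B c ∩ Y0).card : ℝ) < l2 δ ε z0 n).card : ℝ)) ≤
        a ^ (-(gg ζ n)) * (1 + a) ^ (Act.filter fun c =>
          ((nb C c ∩ nb B c ∩ Y0).card : ℝ) < l2 δ ε z0 n).card := by
      by_cases h : gg ζ n < ((Act.filter fun c =>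
          ((nb C c ∩ nb B c ∩ Y0).card : ℝ) < l2 δ ε z0 n).card : ℝ)
      · rw [ind_true h, Real.rpow_neg (by linarith), inv_mul_eq_div,
          one_le_div (Real.rpow_pos_of_pos (by linarith) _), ← Real.rpow_natCast]
        exact (Real.rpow_le_rpow_of_exponent_le ha1 h.le).trans
          (Real.rpow_le_rpow (by linarith) (by linarith) (Nat.cast_nonneg _))
      · rw [ind_false h]
        exact mul_nonneg (Real.rpow_nonneg (by linarith) _) (pow_nonneg (by linarith) _)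
    rw [h1]
    have h3 := mul_le_mul_of_nonneg_left h2 (ind_nonneg (bad R C (bb δ ε n) = Bd))
    linarith
  refine (Ex_mono hp0 hp1 hpt).trans ?_
  rw [Ex_mul]
  refine (mul_le_mul_of_nonneg_left hkey (Real.rpow_nonneg (by linarith) _)).trans ?_
  have hE : 0 ≤ Ex (pc ε n) (fun C => ind (bad R C (bb δ ε n) = Bd)) :=
    Ex_nonneg hp0 hp1 fun _ => ind_nonneg _
  have hfin : a ^ (-(gg ζ n)) * (1 + 2 * a * (n : ℝ) ^ (-q)) ^ Act.card ≤ (n : ℝ) ^ (-(3 : ℝ)) := by
    have h1 : 1 + 2 * a * (n : ℝ) ^ (-q) ≤ Real.exp (2 * (n : ℝ) ^ (-(q / 2))) := by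
      have h2 : a * (n : ℝ) ^ (-q) = (n : ℝ) ^ (-(q / 2)) := by
        rw [ha, ← Real.rpow_add hnpos]; congr 1; ring
      have h3 := Real.add_one_le_exp (2 * (n : ℝ) ^ (-(q / 2)))
      calc 1 + 2 * a * (n : ℝ) ^ (-q) = 2 * (n : ℝ) ^ (-(q / 2)) + 1 := by rw [mul_assoc, h2]; ring
        _ ≤ _ := h3
    have h4 : (1 + 2 * a * (n : ℝ) ^ (-q)) ^ Act.card ≤
        Real.exp (2 * (n : ℝ) ^ (1 - q / 2)) := by
      have h5 : 0 ≤ a * (n : ℝ) ^ (-q) := mul_nonneg (by linarith) (Real.rpow_nonneg hnpos.le _)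
      have h6 : (1 + 2 * a * (n : ℝ) ^ (-q)) ^ Act.card ≤ (1 + 2 * a * (n : ℝ) ^ (-q)) ^ n := by
        refine pow_le_pow_right₀ (by nlinarith) ?_
        have := Finset.card_le_univ Act
        simpa using this
      refine h6.trans ((pow_le_pow_left₀ (by nlinarith) h1 n).trans ?_)
      rw [← Real.exp_nat_mul]
      refine Real.exp_le_exp.2 (le_of_eq ?_)
      rw [sub_eq_add_neg, Real.rpow_add hnpos, Real.rpow_one]
      ring
    have h7 : a ^ (-(gg ζ n)) = Real.exp (-(q * ζ * n / 32)) := by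
      rw [ha, ← Real.rpow_mul hnpos.le, Real.rpow_def_of_pos hnpos]
      congr 1
      unfold gg
      field_simp
      ring
    rw [h7]
    refine (mul_le_mul_of_nonneg_left h4 (Real.exp_pos _).le).trans ?_
    rw [← Real.exp_add, Real.rpow_def_of_pos hnpos (-(3 : ℝ))]
    refine Real.exp_le_exp.2 ?_
    linarith
  calc a ^ (-(gg ζ n)) * (Ex (pc ε n) (fun C => ind (bad R C (bb δ ε n) = Bd)) *
        (1 + 2 * a * (n : ℝ) ^ (-q)) ^ Act.card)
      = (a ^ (-(gg ζ n)) * (1 + 2 * a * (n : ℝ) ^ (-q)) ^ Act.card) *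
        Ex (pc ε n) (fun C => ind (bad R C (bb δ ε n) = Bd)) := by ring
    _ ≤ _ := mul_le_mul_of_nonneg_right hfin hE

end Pool.Agent.Helper40.LS
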