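import Pool.Agent.Helper40.LS.Q34
import Pool.Agent.Helper40.LS.Q5
import Pool.Agent.Helper40.LS.H7
import Pool.Agent.Helper64.LS.Num

set_option autoImplicit false
open Classical Filter Topology

namespace Pool.Agent.Helper40.LS

/-- the numbers -/
theorem h64_num8 {a : ℝ} (ha : 0 < a) : ∀ᶠ n : ℕ in atTop,
    3 * (n : ℝ) * Real.log 2 - a * Real.log n * n ≤ -(3 * Real.log n) := by
  have h1 : Tendsto (fun n : ℕ => Real.log n) atTop atTop :=
    Real.tendsto_log_atTop.comp tendsto_natCast_atTop_atTop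
  filter_upwards [h1.eventually_ge_atTop (3 / a * 2), eventually_ge_atTop ⌈6 / a⌉₊,
    eventually_ge_atTop 1] with n hn h6 h1
  have h3 : (1 : ℝ) ≤ n := by exact_mod_cast h1
  have h4 : 6 / a ≤ n := (Nat.le_ceil _).trans (by exact_mod_cast h6)
  have h5 : 0 ≤ Real.log n := Real.log_nonneg h3
  have h7 := Real.log_two_lt_d9
  have h8 : 3 ≤ a * Real.log n / 2 := by
    have : 3 / a * 2 * a = 6 := by field_simp; norm_num
    nlinarith
  have h9 : 6 ≤ a * n := by
    rw [div_le_iff₀ ha] at h4; linarith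
  nlinarith

/-- LS-Q8: large sets (uses Q3, Q5, H7) -/
theorem large_fail {δ ε dA h z0 dC ζ : ℝ} (P : Par δ ε dA h z0 dC ζ) :
    ∀ᶠ n : ℕ in atTop, ∀ (R B : Gr n) (Bd Act Y0 : Finset (Fin n)) (z : ℝ),
      Reserve R (δ / 8) ζ → Disjoint Act Bd → z0 ≤ z →
      Samp B Y0 (δ / 8) (tau δ) (2 * z * n) →
      Ex (pc ε n) (fun C => ind (bad R C (bb δ ε n) = Bd) *
        ind (∃ X ⊆ Act, ∃ Z ⊆ Y0, dC / 2 * n < (X.card : ℝ) ∧ z / 25 * n ≤ (Z.card : ℝ) ∧
          ∀ c ∈ X, ∀ s ∈ Z, (c, s) ∉ C ∩ B)) ≤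
      (n : ℝ) ^ (-(3 : ℝ)) * Ex (pc ε n) (fun C => ind (bad R C (bb δ ε n) = Bd)) := by
  have hδ := P.δ0
  have hδ1 := P.δ1
  have hε := P.ε0
  have hε1 := P.ε1
  have hz0 := P.zpos
  have hdC := P.dC0
  have hτ : 0 < tau δ := by unfold tau; positivity
  have hτ1 : tau δ ≤ 1 := by unfold tau; nlinarith
  set a : ℝ := ε / 8 * (δ / 8 / 2 * (dC / 2 * (z0 / 25))) with ha
  have ha0 : 0 < a := by positivity
  filter_upwards [pr_bad P, h64_pc hε hε1, h64_half (a := ε * δ / 1024) (by positivity),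
    h64_num8 ha0, eventually_ge_atTop 2, eventually_ge_atTop ⌈2 / (tau δ * (dC / 2))⌉₊]
    with n hbad hp hhalf hnum hn2 hnX
  intro R B Bd Act Y0 z hR hdis hz hS
  obtain ⟨hp0, hp1⟩ := hp
  have hn : (2 : ℝ) ≤ n := by exact_mod_cast hn2
  have hnpos : (0 : ℝ) < n := by linarith
  have hlog : 0 < Real.log n := Real.log_pos (by linarith)
  have hb := (hbad R hR).1
  have hE : 0 ≤ Ex (pc ε n) (fun C => ind (bad R C (bb δ ε n) = Bd)) :=
    Ex_nonneg hp0 hp1 fun _ => ind_nonneg _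
  have hnX' : 2 ≤ tau δ * (dC / 2) * n := by
    have h1 : 2 / (tau δ * (dC / 2)) ≤ n := (Nat.le_ceil _).trans (by exact_mod_cast hnX)
    rw [div_le_iff₀ (by positivity)] at h1
    linarith
  -- one pair
  have hone : ∀ X ⊆ Act, ∀ Z ⊆ Y0, dC / 2 * n < (X.card : ℝ) → z / 25 * n ≤ (Z.card : ℝ) →
      Ex (pc ε n) (fun C => ind (bad R C (bb δ ε n) = Bd) *
        ind (∀ c ∈ X, ∀ s ∈ Z, (c, s) ∉ C ∩ B)) ≤
      Real.exp (n * Real.log 2 - a * Real.log n * n) *
        Ex (pc ε n) (fun C => ind (bad R C (bb δ ε n) = Bd)) := by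
    intro X hX Z hZ hXc hZc
    have hpairs := pairs_lower B X Y0 Z (δ / 8) (tau δ) (2 * z * n) (by positivity) (by linarith)
      hτ hτ1 (by nlinarith [hz0.le.trans hz]) (fun c _ => hS.low c)
      (fun c _ c' _ hcc => hS.cod c c' hcc) hS.card
      (by nlinarith) hZ (by
        unfold tau
        have h1 : (δ / 8) ^ 2 * (z / 25 * n) ≤ (δ / 8) ^ 2 * Z.card :=
          mul_le_mul_of_nonneg_left hZc (by positivity)
        have h2 : 0 ≤ (δ / 8) ^ 2 * (z * n) := by
          have := hz0.le.trans hz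
          positivity
        nlinarith)
    have hcol := cond_col hp0 hp1 R (bb δ ε n) (fun c => (hb c).trans hhalf) Bd X
      (hdis.mono_left hX) (fun c Y => ind (Y ∩ (nb B c ∩ Z) = ∅)) (fun c Y => ind_nonneg _)
    have hpt : ∀ C : Gr n, ind (bad R C (bb δ ε n) = Bd) *
        ind (∀ c ∈ X, ∀ s ∈ Z, (c, s) ∉ C ∩ B) ≤
        ind (bad R C (bb δ ε n) = Bd) * ∏ c ∈ X, ind (nb C c ∩ (nb B c ∩ Z) = ∅) := by
      intro C
      refine mul_le_mul_of_nonneg_left ?_ (ind_nonneg _)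
      by_cases h : ∀ c ∈ X, ∀ s ∈ Z, (c, s) ∉ C ∩ B
      · rw [ind_true h, Finset.prod_eq_one]
        intro c hc
        refine ind_true ?_
        rw [Finset.eq_empty_iff_forall_notMem]
        intro s hs
        simp only [Finset.mem_inter, mem_nb] at hs
        exact h c hc s hs.2.2 (Finset.mem_inter.2 ⟨hs.1, hs.2.1⟩)
      · rw [ind_false h]
        exact Finset.prod_nonneg fun c _ => ind_nonneg _
    refine (Ex_mono hp0 hp1 hpt).trans (hcol.trans ?_)
    rw [mul_comm]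
    refine mul_le_mul_of_nonneg_right ?_ hE
    have h1 : ∀ c ∈ X, 2 * ∑ Y : Finset (Fin n), FL.wt (pc ε n) Y *
        ind (Y ∩ (nb B c ∩ Z) = ∅) ≤ 2 * Real.exp (-(pc ε n * ((nb B c ∩ Z).card : ℝ))) := by
      intro c _
      rw [← Pr_eq]
      exact mul_le_mul_of_nonneg_left (tail_empty hp0 hp1 (nb B c ∩ Z)) (by norm_num)
    refine (Finset.prod_le_prod (fun c _ => ?_) h1).trans ?_
    · refine mul_nonneg (by norm_num) (Finset.sum_nonneg fun Y _ =>
        mul_nonneg (FL.wt_nonneg hp0 hp1 Y) (ind_nonneg _))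
    · rw [Finset.prod_mul_distrib, Finset.prod_const, ← Real.exp_sum, Finset.sum_neg_distrib,
        ← Finset.mul_sum, ← card_box_eq_sum]
      have h2 : (2 : ℝ) ^ X.card ≤ Real.exp (n * Real.log 2) := by
        have h3 : X.card ≤ n := by
          have := Finset.card_le_univ X
          simpa using this
        calc (2 : ℝ) ^ X.card ≤ 2 ^ n := pow_le_pow_right₀ (by norm_num) h3
          _ = Real.exp (n * Real.log 2) := by
            rw [Real.exp_nat_mul, Real.exp_log (by norm_num)]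
      have h4 : a * Real.log n * n ≤ pc ε n * ((B ∩ box X Z).card : ℝ) := by
        have h5 : δ / 8 / 2 * (dC / 2 * n * (z0 / 25 * n)) ≤ ((B ∩ box X Z).card : ℝ) := by
          refine le_trans ?_ hpairs
          refine mul_le_mul_of_nonneg_left ?_ (by positivity)
          refine mul_le_mul hXc.le ?_ (by positivity) (Nat.cast_nonneg _)
          refine le_trans ?_ hZc
          exact mul_le_mul_of_nonneg_right (by linarith) hnpos.le
        refine le_trans (le_of_eq ?_) (mul_le_mul_of_nonneg_left h5 hp0)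
        unfold pc
        rw [ha]
        field_simp
      calc (2 : ℝ) ^ X.card * Real.exp (-(pc ε n * ((B ∩ box X Z).card : ℝ)))
          ≤ Real.exp (n * Real.log 2) * Real.exp (-(a * Real.log n * n)) :=
            mul_le_mul h2 (Real.exp_le_exp.2 (by linarith)) (Real.exp_pos _).le (Real.exp_pos _).le
        _ = _ := by rw [← Real.exp_add]; ring_nf
  -- union bound
  have hpt : ∀ C : Gr n, ind (bad R C (bb δ ε n) = Bd) *
        ind (∃ X ⊆ Act, ∃ Z ⊆ Y0, dC / 2 * n < (X.card : ℝ) ∧ z / 25 * n ≤ (Z.card : ℝ) ∧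
          ∀ c ∈ X, ∀ s ∈ Z, (c, s) ∉ C ∩ B) ≤
      ∑ x ∈ (Act.powerset ×ˢ Y0.powerset).filter (fun x : Finset (Fin n) × Finset (Fin n) =>
        dC / 2 * n < (x.1.card : ℝ) ∧ z / 25 * n ≤ (x.2.card : ℝ)),
        ind (bad R C (bb δ ε n) = Bd) * ind (∀ c ∈ x.1, ∀ s ∈ x.2, (c, s) ∉ C ∩ B) := by
    intro C
    rw [← Finset.mul_sum]
    refine mul_le_mul_of_nonneg_left ?_ (ind_nonneg _)
    refine le_trans (ind_mono ?_) (ind_exists_le _ _)
    rintro ⟨X, hX, Z, hZ, h1, h2, h3⟩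
    refine ⟨(X, Z), ?_, h3⟩
    simp only [Finset.mem_filter, Finset.mem_product, Finset.mem_powerset]
    exact ⟨⟨hX, hZ⟩, h1, h2⟩
  refine (Ex_mono hp0 hp1 hpt).trans ?_
  rw [Ex_sum]
  have hsum : ∀ x ∈ (Act.powerset ×ˢ Y0.powerset).filter
      (fun x : Finset (Fin n) × Finset (Fin n) =>
        dC / 2 * n < (x.1.card : ℝ) ∧ z / 25 * n ≤ (x.2.card : ℝ)),
      Ex (pc ε n) (fun C => ind (bad R C (bb δ ε n) = Bd) *
        ind (∀ c ∈ x.1, ∀ s ∈ x.2, (c, s) ∉ C ∩ B)) ≤
      Real.exp (n * Real.log 2 - a * Real.log n * n) *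
        Ex (pc ε n) (fun C => ind (bad R C (bb δ ε n) = Bd)) := by
    intro x hx
    simp only [Finset.mem_filter, Finset.mem_product, Finset.mem_powerset] at hx
    exact hone x.1 hx.1.1 x.2 hx.1.2 hx.2.1 hx.2.2
  refine (Finset.sum_le_sum hsum).trans ?_
  rw [Finset.sum_const, nsmul_eq_mul, ← mul_assoc]
  refine mul_le_mul_of_nonneg_right ?_ hE
  have hcard : (((Act.powerset ×ˢ Y0.powerset).filter
      (fun x : Finset (Fin n) × Finset (Fin n) =>
        dC / 2 * n < (x.1.card : ℝ) ∧ z / 25 * n ≤ (x.2.card : ℝ))).card : ℝ) ≤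
      Real.exp (2 * n * Real.log 2) := by
    have h1 : ((Act.powerset ×ˢ Y0.powerset).filter
      (fun x : Finset (Fin n) × Finset (Fin n) =>
        dC / 2 * n < (x.1.card : ℝ) ∧ z / 25 * n ≤ (x.2.card : ℝ))).card ≤ 2 ^ n * 2 ^ n := by
      refine (Finset.card_filter_le _ _).trans ?_
      rw [Finset.card_product, Finset.card_powerset, Finset.card_powerset]
      have h2 : Act.card ≤ n := by simpa using Finset.card_le_univ Act
      have h3 : Y0.card ≤ n := by simpa using Finset.card_le_univ Y0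
      exact Nat.mul_le_mul (Nat.pow_le_pow_right (by norm_num) h2)
        (Nat.pow_le_pow_right (by norm_num) h3)
    have h4 : Real.exp (2 * n * Real.log 2) = 2 ^ n * 2 ^ n := by
      have : 2 * (n : ℝ) * Real.log 2 = n * Real.log 2 + n * Real.log 2 := by ring
      rw [this, Real.exp_add, Real.exp_nat_mul, Real.exp_log (by norm_num)]
    rw [h4]
    exact_mod_cast h1
  refine (mul_le_mul_of_nonneg_right hcard (Real.exp_pos _).le).trans ?_
  rw [← Real.exp_add, Real.rpow_def_of_pos hnpos]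
  refine Real.exp_le_exp.2 ?_
  linarith

end Pool.Agent.Helper40.LS
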